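import Pool.Agent.H266Z.Leh.Main

set_option autoImplicit false

namespace Pool.Agent.Results.MP_b311ff_nt.AFinite

/-- `r` is a quadratic residue of `p` -/
def QR (p : ℕ) (r : ℤ) : Prop := ¬ (p : ℤ) ∣ r ∧ ∃ x : ℤ, r ≡ x ^ 2 [ZMOD p]

/-- the exceptional pairs, a condition on the unordered pair of residues -/
def Exceptional (a b : ℕ) : Prop :=
  ({a % 3, b % 3} : Finset ℕ) = {1, 2} ∨
  ({a % 5, b % 5} : Finset ℕ) ∈ ({{1, 3}, {2, 3}, {2, 4}} : Finset (Finset ℕ)) ∨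
  ({a % 7, b % 7} : Finset ℕ) ∈ ({{1, 5}, {2, 3}, {4, 6}} : Finset (Finset ℕ))

/-- `Ω(a,b)` is finite for every pair `0 < a < b` that is not exceptional. -/
theorem result : ∀ a b : ℕ, 0 < a → a < b → ¬ Exceptional a b →
    ∃ N : ℕ, 0 < N ∧ ∃ p₀ : ℕ, ∀ p : ℕ, p.Prime → p₀ < p →
      ∃ r : ℕ, 1 ≤ r ∧ r ≤ N ∧ QR p r ∧ QR p (r + a) ∧ QR p (r + b) := by
  intro a b ha hab hE
  obtain ⟨N, p₀, h⟩ := Pool.Agent.H266Z.Leh.lehmer ha hab hE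
  refine ⟨N + 1, Nat.succ_pos N, p₀, fun p hp hp₀ => ?_⟩
  obtain ⟨r, h1, h2, h3, h4, h5⟩ := h p hp hp₀
  rw [Nat.cast_add] at h4 h5
  exact ⟨r, h1, h2.trans (Nat.le_succ N), Pool.Agent.H266Z.Leh.qr_of_jacobi hp h3,
    Pool.Agent.H266Z.Leh.qr_of_jacobi hp h4,
    Pool.Agent.H266Z.Leh.qr_of_jacobi hp h5⟩

end Pool.Agent.Results.MP_b311ff_nt.AFinite
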